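import Pool.Agent.H27.G.R_seed8.H413R2.RZ4_HMb

/-! Task HM of the project RZ: Mellin representation of the error term. -/

set_option autoImplicit false

namespace Pool.Agent.H413R2.RZ4HM

open Finset Filter Topology MeasureTheory Pool.Agent.H306R2.RZ

noncomputable section

/-- the function of the statement -/
def gg (s : ℂ) : ℂ := (1 / (2 * Real.pi) : ℝ) * mellin (fun x => (Sd 1 x : ℂ)) s

theorem gg_int (σ : ℝ) (h0 : 0 < σ) (h1 : σ < 1) :
    Integrable (fun t : ℝ => gg ((σ : ℂ) + t * Complex.I)) :=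
  (vertical σ h0 h1).const_mul _

theorem inv_form (σ : ℝ) (h0 : 0 < σ) (h1 : σ < 1) (x : ℝ) (hx : 0 < x) :
    (Sd 1 x : ℂ) = ∫ t : ℝ, gg ((σ : ℂ) + t * Complex.I) *
      (x : ℂ) ^ (-((σ : ℂ) + t * Complex.I)) := by
  have hc : ContinuousAt (fun x => (Sd 1 x : ℂ)) x :=
    (Sd_contOn 1).continuousAt (Ioi_mem_nhds hx)
  have h2 := mellinInv_mellin_eq σ (fun x => (Sd 1 x : ℂ)) hx
    (Sd_mellin 1 σ (by simpa using h0) (by simpa using h1)) (vertical σ h0 h1) hc
  rw [mellinInv] at h2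
  rw [← h2, Complex.real_smul, ← integral_const_mul]
  congr 1
  funext t
  simp only [gg, smul_eq_mul]
  ring

theorem rad_div (r : ℕ) (hr : r ≠ 0) : ∃ R : ℕ, Squarefree R ∧ R.primeFactors = r.primeFactors ∧
    (∀ b : ℕ, b.Coprime r ↔ b.Coprime R) := by
  have hpf : (∏ p ∈ r.primeFactors, p).primeFactors = r.primeFactors :=
    Nat.primeFactors_prod_primeFactors r
  have hR0 : ∏ p ∈ r.primeFactors, p ≠ 0 :=
    Finset.prod_ne_zero_iff.2 fun p hp => (Nat.prime_of_mem_primeFactors hp).ne_zero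
  refine ⟨∏ p ∈ r.primeFactors, p, ?_, hpf, fun b => ?_⟩
  · refine Finset.squarefree_prod_of_pairwise_isCoprime (fun p hp q hq hpq => ?_)
      fun p hp => (Nat.prime_of_mem_primeFactors hp).squarefree
    exact Nat.coprime_iff_isRelPrime.1 ((Nat.coprime_primes (Nat.prime_of_mem_primeFactors hp)
      (Nat.prime_of_mem_primeFactors hq)).2 hpq)
  · by_cases hb : b = 0
    · subst hb
      rw [Nat.coprime_zero_left, Nat.coprime_zero_left]
      constructor
      · rintro rfl; simp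
      · intro h
        rw [h, Nat.primeFactors_one, eq_comm, Nat.primeFactors_eq_empty] at hpf
        exact hpf.resolve_left hr
    · rw [← Nat.disjoint_primeFactors hb hr, ← Nat.disjoint_primeFactors hb hR0, hpf]

theorem hs_eq (s : ℂ) (hs0 : s ≠ 0) (R : ℕ) (hR : Squarefree R) :
    ∏ p ∈ R.primeFactors, (1 - (p : ℂ) ^ (-s)) =
      ∑ d ∈ R.divisors, ((ArithmeticFunction.moebius d : ℤ) : ℂ) * (d : ℂ) ^ (-s) := by
  let f : ArithmeticFunction ℂ := ⟨fun n => (n : ℂ) ^ (-s), by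
    simp [Complex.zero_cpow (neg_ne_zero.2 hs0)]⟩
  have hf : f.IsMultiplicative := by
    refine ⟨by simp [f], fun {m n} _ => ?_⟩
    simp only [f, ArithmeticFunction.coe_mk, Nat.cast_mul]
    exact Complex.natCast_mul_natCast_cpow m n (-s)
  exact ArithmeticFunction.IsMultiplicative.prodPrimeFactors_one_sub_of_squarefree f hf hR

theorem tot_eq (R r : ℕ) (hR : Squarefree R) (hr : r ≠ 0) (h : R.primeFactors = r.primeFactors) :
    ∑ d ∈ R.divisors, ((ArithmeticFunction.moebius d : ℤ) : ℝ) * (d : ℝ)⁻¹ =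
      (r.totient : ℝ) / r := by
  let f : ArithmeticFunction ℝ := ⟨fun n => (n : ℝ)⁻¹, by simp⟩
  have hf : f.IsMultiplicative := by
    refine ⟨by simp [f], fun {m n} _ => ?_⟩
    simp only [f, ArithmeticFunction.coe_mk, Nat.cast_mul]
    exact mul_inv _ _
  have h1 := ArithmeticFunction.IsMultiplicative.prodPrimeFactors_one_sub_of_squarefree f hf hR
  have h2 : ((r.totient : ℚ) : ℝ) = ((r * ∏ p ∈ r.primeFactors, (1 - (p : ℚ)⁻¹) : ℚ) : ℝ) := by
    rw [Nat.totient_eq_mul_prod_factors]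
  push_cast at h2
  rw [h2, mul_div_assoc, mul_comm, div_mul_cancel₀ _ (Nat.cast_ne_zero.2 hr), ← h]
  exact h1.symm

theorem Phr_eq (r R : ℕ) (hR0 : R ≠ 0) (h : ∀ b : ℕ, b.Coprime r ↔ b.Coprime R) (Z : ℝ)
    (hZ : 0 < Z) :
    Phr r Z = ∑ d ∈ R.divisors, ((ArithmeticFunction.moebius d : ℤ) : ℝ) *
      ∑' b : ℕ, Ep 1 ((b + 1) * (d / Z)) := by
  have hE : ∀ x : ℝ, Ep 1 x = Real.exp (-(Real.pi * x ^ 4)) := fun x => by simp [Ep]
  have key : ∀ d ∈ R.divisors, HasSum (fun n : ℕ => if n ≠ 0 ∧ d ∣ n then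
      ((ArithmeticFunction.moebius d : ℤ) : ℝ) * Real.exp (-(Real.pi * ((n : ℝ) / Z) ^ 4)) else 0)
      (((ArithmeticFunction.moebius d : ℤ) : ℝ) * ∑' b : ℕ, Ep 1 ((b + 1) * (d / Z))) := by
    intro d hd
    have hd0 : 0 < d := Nat.pos_of_mem_divisors hd
    have hdR : (0 : ℝ) < d := by exact_mod_cast hd0
    have h1 := ((Ep_summable 1 (d / Z) (by positivity)).hasSum).mul_left
      (((ArithmeticFunction.moebius d : ℤ) : ℝ))
    have hinj : Function.Injective (fun b : ℕ => (b + 1) * d) := fun a b hab => by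
      have := Nat.eq_of_mul_eq_mul_right hd0 hab
      omega
    rw [← hinj.hasSum_iff (f := fun n : ℕ => if n ≠ 0 ∧ d ∣ n then
      ((ArithmeticFunction.moebius d : ℤ) : ℝ) * Real.exp (-(Real.pi * ((n : ℝ) / Z) ^ 4)) else 0)]
    · have hfe : ((fun n : ℕ => if n ≠ 0 ∧ d ∣ n then
          ((ArithmeticFunction.moebius d : ℤ) : ℝ) * Real.exp (-(Real.pi * ((n : ℝ) / Z) ^ 4))
          else 0) ∘ fun b : ℕ => (b + 1) * d) =
          fun b : ℕ => ((ArithmeticFunction.moebius d : ℤ) : ℝ) * Ep 1 ((b + 1) * (d / Z)) := by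
        funext b
        have hb : (b + 1) * d ≠ 0 := Nat.mul_ne_zero (by omega) hd0.ne'
        simp only [Function.comp_apply]
        rw [if_pos ⟨hb, Dvd.intro_left _ rfl⟩, hE]
        push_cast
        rw [mul_div_assoc]
      rw [hfe]
      exact h1
    · intro n hn
      rw [if_neg]
      rintro ⟨hn0, b, rfl⟩
      apply hn
      obtain ⟨c, rfl⟩ : ∃ c, b = c + 1 := ⟨b - 1, by
        have : b ≠ 0 := by rintro rfl; simp at hn0
        omega⟩
      exact ⟨c, mul_comm _ _⟩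
  have h2 := hasSum_sum key
  rw [← h2.tsum_eq, Phr]
  congr 1
  funext n
  have h3 : (∑ d ∈ R.divisors, if n ≠ 0 ∧ d ∣ n then
      ((ArithmeticFunction.moebius d : ℤ) : ℝ) * Real.exp (-(Real.pi * ((n : ℝ) / Z) ^ 4)) else 0) =
      if n ≠ 0 then (∑ d ∈ (Nat.gcd n R).divisors, ((ArithmeticFunction.moebius d : ℤ) : ℝ)) *
        Real.exp (-(Real.pi * ((n : ℝ) / Z) ^ 4)) else 0 := by
    by_cases hn : n = 0
    · simp [hn]
    · have hg : (Nat.gcd n R).divisors = R.divisors.filter (fun d => d ∣ n) := by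
        ext d
        simp only [Nat.mem_divisors, Finset.mem_filter, Nat.dvd_gcd_iff]
        constructor
        · rintro ⟨⟨h1, h2⟩, _⟩
          exact ⟨⟨h2, hR0⟩, h1⟩
        · rintro ⟨⟨h1, _⟩, h2⟩
          exact ⟨⟨h2, h1⟩, Nat.gcd_ne_zero_right hR0⟩
      rw [if_pos hn, Finset.sum_mul, hg, Finset.sum_filter]
      refine Finset.sum_congr rfl fun d _ => ?_
      simp [hn]
  rw [h3]
  by_cases hn : n = 0
  · simp [hn]
  · have h4 : (∑ d ∈ (Nat.gcd n R).divisors, ((ArithmeticFunction.moebius d : ℤ) : ℝ)) =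
        if Nat.gcd n R = 1 then 1 else 0 := by
      have h5 : (∑ d ∈ (Nat.gcd n R).divisors, ArithmeticFunction.moebius d) =
          if Nat.gcd n R = 1 then (1 : ℤ) else 0 := by
        rw [← ArithmeticFunction.coe_mul_zeta_apply, ArithmeticFunction.moebius_mul_coe_zeta,
          ArithmeticFunction.one_apply]
      exact_mod_cast h5
    rw [if_pos hn, h4]
    by_cases hc : n.Coprime r
    · have hc' : Nat.gcd n R = 1 := (h n).1 hc
      rw [if_pos ⟨hn, hc⟩, if_pos hc', one_mul]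
    · have hc' : ¬ Nat.gcd n R = 1 := fun h' => hc ((h n).2 h')
      rw [if_neg (fun h' => hc h'.2), if_neg hc', zero_mul]

theorem Ip_one : Ip 1 = cph := by
  rw [Ip, cph]
  congr 1
  funext u
  simp [Ep]

theorem Er_eq (r R : ℕ) (hr : r ≠ 0) (hR : Squarefree R) (hp : R.primeFactors = r.primeFactors)
    (h : ∀ b : ℕ, b.Coprime r ↔ b.Coprime R) (Z : ℝ) (hZ : 0 < Z) :
    Er r Z = ∑ d ∈ R.divisors, ((ArithmeticFunction.moebius d : ℤ) : ℝ) * Sd 1 (d / Z) := by
  rw [Er, Phr_eq r R hR.ne_zero h Z hZ, ← tot_eq R r hR hr hp, Finset.mul_sum, Finset.sum_mul,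
    ← Finset.sum_sub_distrib]
  refine Finset.sum_congr rfl fun d hd => ?_
  have hd0 : (0 : ℝ) < d := by exact_mod_cast Nat.pos_of_mem_divisors hd
  rw [Sd, Ip_one]
  generalize ∑' b : ℕ, Ep 1 ((b + 1) * (d / Z)) = W
  field_simp

theorem cpow_split (d Z : ℝ) (hd : 0 < d) (hZ : 0 < Z) (s : ℂ) :
    ((d / Z : ℝ) : ℂ) ^ (-s) = (d : ℂ) ^ (-s) * (Z : ℂ) ^ s := by
  rw [div_eq_mul_inv, Complex.ofReal_mul, Complex.mul_cpow_ofReal_nonneg hd.le (inv_nonneg.2 hZ.le),
    Complex.ofReal_inv, Complex.inv_cpow_ofReal_nonneg hZ.le, Complex.cpow_neg (Z : ℂ), inv_inv]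

theorem term_int (σ : ℝ) (h0 : 0 < σ) (h1 : σ < 1) (x : ℝ) (hx : 0 < x) :
    Integrable (fun t : ℝ => gg ((σ : ℂ) + t * Complex.I) *
      (x : ℂ) ^ (-((σ : ℂ) + t * Complex.I))) := by
  have hg := gg_int σ h0 h1
  refine Integrable.mono' (hg.norm.mul_const (x ^ (-σ))) (hg.aestronglyMeasurable.mul ?_)
    (Eventually.of_forall fun t => ?_)
  · have hx0 : (x : ℂ) ≠ 0 := Complex.ofReal_ne_zero.2 hx.ne'
    exact (Continuous.const_cpow (by fun_prop) (Or.inl hx0)).aestronglyMeasurable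
  · rw [norm_mul, Complex.norm_cpow_eq_rpow_re_of_pos hx]
    simp

/-- Mellin representation of the error term -/
theorem HM : ∃ g : ℂ → ℂ, (∀ σ : ℝ, 0 < σ → σ < 1 →
      Integrable (fun t : ℝ => g ((σ : ℂ) + t * Complex.I))) ∧
    ∀ σ : ℝ, 0 < σ → σ < 1 → ∀ r : ℕ, r ≠ 0 → ∀ Z : ℝ, 0 < Z →
      (Er r Z : ℂ) = ∫ t : ℝ, g ((σ : ℂ) + t * Complex.I) * hs ((σ : ℂ) + t * Complex.I) r *
        (Z : ℂ) ^ ((σ : ℂ) + t * Complex.I) := by
  refine ⟨gg, gg_int, fun σ h0 h1 r hr Z hZ => ?_⟩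
  obtain ⟨R, hR, hp, hc⟩ := rad_div r hr
  rw [Er_eq r R hr hR hp hc Z hZ, Complex.ofReal_sum]
  have e1 : ∀ d ∈ R.divisors,
      ((((ArithmeticFunction.moebius d : ℤ) : ℝ) * Sd 1 (d / Z) : ℝ) : ℂ) =
      ∫ t : ℝ, ((ArithmeticFunction.moebius d : ℤ) : ℂ) * (gg ((σ : ℂ) + t * Complex.I) *
        ((d / Z : ℝ) : ℂ) ^ (-((σ : ℂ) + t * Complex.I))) := by
    intro d hd
    have hd0 : (0 : ℝ) < d := by exact_mod_cast Nat.pos_of_mem_divisors hd
    rw [integral_const_mul, ← inv_form σ h0 h1 (d / Z) (by positivity)]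
    push_cast
    rfl
  rw [Finset.sum_congr rfl e1, ← integral_finsetSum]
  · congr 1
    funext t
    have hs0 : (σ : ℂ) + t * Complex.I ≠ 0 := by
      intro h
      have := congrArg Complex.re h
      simp at this
      exact h0.ne' this
    rw [hs, ← hp, hs_eq _ hs0 R hR, Finset.mul_sum, Finset.sum_mul]
    refine Finset.sum_congr rfl fun d hd => ?_
    have hd0 : (0 : ℝ) < d := by exact_mod_cast Nat.pos_of_mem_divisors hd
    rw [cpow_split d Z hd0 hZ]
    push_cast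
    ring
  · intro d hd
    have hd0 : (0 : ℝ) < d := by exact_mod_cast Nat.pos_of_mem_divisors hd
    exact (term_int σ h0 h1 (d / Z) (by positivity)).const_mul _

end

end Pool.Agent.H413R2.RZ4HM
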