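import Pool.Agent.H27.G.R_seed8.H306R2.RZ.Defs4

/-! Task HM of the project RZ: Mellin representation of the error term. -/

set_option autoImplicit false

namespace Pool.Agent.H413R2.RZ4HM

open Finset Filter Topology MeasureTheory Pool.Agent.H306R2.RZ Polynomial
open Real (pi)

noncomputable section

/-- `P(u) exp(-π u⁴)` -/
def Ep (P : ℝ[X]) (u : ℝ) : ℝ := P.eval u * Real.exp (-(Real.pi * u ^ 4))

/-- derivative on the level of polynomials -/
def Dp (P : ℝ[X]) : ℝ[X] := derivative P - C (4 * Real.pi) * X ^ 3 * P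

/-- `u d/du` on the level of polynomials -/
def Tp (P : ℝ[X]) : ℝ[X] := X * Dp P

theorem Ep_hasDeriv (P : ℝ[X]) (u : ℝ) : HasDerivAt (Ep P) (Ep (Dp P) u) u := by
  have h1 : HasDerivAt (fun u : ℝ => P.eval u) ((derivative P).eval u) u := P.hasDerivAt u
  have h2 : HasDerivAt (fun u : ℝ => -(Real.pi * u ^ 4)) (-(Real.pi * (4 * u ^ 3))) u := by
    refine HasDerivAt.congr_deriv (((hasDerivAt_pow 4 u).const_mul Real.pi).neg) ?_
    norm_num
  have h3 := h1.mul h2.exp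
  refine h3.congr_deriv ?_
  simp only [Ep, Dp, eval_sub, eval_mul, eval_C, eval_pow, eval_X]
  ring

theorem Ep_cont (P : ℝ[X]) : Continuous (Ep P) :=
  continuous_iff_continuousAt.2 fun u => (Ep_hasDeriv P u).continuousAt

theorem mono_bound (k : ℕ) (u : ℝ) (hu : 0 ≤ u) :
    u ^ k * Real.exp (-(Real.pi * u ^ 4)) ≤ 2 * ((k + 2).factorial : ℝ) / (1 + u ^ 2) := by
  rw [le_div_iff₀ (by positivity), Real.exp_neg, ← div_eq_mul_inv, div_mul_eq_mul_div,
    div_le_iff₀ (Real.exp_pos _)]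
  have hf : (1 : ℝ) ≤ ((k + 2).factorial : ℝ) := by exact_mod_cast (k + 2).factorial_pos
  have he1 : (1 : ℝ) ≤ Real.exp (Real.pi * u ^ 4) := Real.one_le_exp (by positivity)
  rcases le_total u 1 with h | h
  · have h1 : u ^ k ≤ 1 := pow_le_one₀ hu h
    have h2 : u ^ 2 ≤ 1 := pow_le_one₀ hu h
    have h3 : u ^ k * (1 + u ^ 2) ≤ 1 * 2 := mul_le_mul h1 (by linarith) (by positivity) (by norm_num)
    nlinarith [mul_le_mul hf he1 (by norm_num) (by positivity)]
  · have h1 : u ^ k * (1 + u ^ 2) ≤ 2 * u ^ (k + 2) := by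
      have : (1 : ℝ) ≤ u ^ 2 := one_le_pow₀ h
      rw [pow_add]
      nlinarith [pow_pos (lt_of_lt_of_le one_pos h) k]
    have h2 : u ^ (k + 2) ≤ (u ^ 4) ^ (k + 2) := by
      rw [← pow_mul]
      exact pow_le_pow_right₀ h (by omega)
    have h3 : (u ^ 4) ^ (k + 2) / ((k + 2).factorial : ℝ) ≤ Real.exp (u ^ 4) :=
      Real.pow_div_factorial_le_exp (u ^ 4) (by positivity) (k + 2)
    have h4 : Real.exp (u ^ 4) ≤ Real.exp (Real.pi * u ^ 4) := by
      apply Real.exp_le_exp.2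
      have := Real.pi_gt_three
      nlinarith [pow_nonneg hu 4]
    rw [div_le_iff₀ (by positivity)] at h3
    calc u ^ k * (1 + u ^ 2) ≤ 2 * u ^ (k + 2) := h1
      _ ≤ 2 * (Real.exp (u ^ 4) * ((k + 2).factorial : ℝ)) := by linarith
      _ ≤ 2 * (Real.exp (Real.pi * u ^ 4) * ((k + 2).factorial : ℝ)) := by gcongr
      _ = _ := by ring

theorem Ep_bound (P : ℝ[X]) : ∃ K : ℝ, 0 < K ∧ ∀ u, 0 ≤ u → |Ep P u| ≤ K / (1 + u ^ 2) := by
  refine ⟨1 + ∑ i ∈ range (P.natDegree + 1), |P.coeff i| * (2 * ((i + 2).factorial : ℝ)), by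
    positivity, fun u hu => ?_⟩
  have h1 : |Ep P u| ≤ ∑ i ∈ range (P.natDegree + 1), |P.coeff i| *
      (u ^ i * Real.exp (-(Real.pi * u ^ 4))) := by
    rw [Ep, eval_eq_sum_range, Finset.sum_mul]
    refine (Finset.abs_sum_le_sum_abs _ _).trans (le_of_eq ?_)
    refine Finset.sum_congr rfl fun i _ => ?_
    rw [abs_mul, abs_mul, abs_of_nonneg (pow_nonneg hu i), abs_of_pos (Real.exp_pos _)]
    ring
  refine h1.trans ?_
  rw [add_div, Finset.sum_div]
  have h2 : ∑ i ∈ range (P.natDegree + 1), |P.coeff i| * (u ^ i * Real.exp (-(Real.pi * u ^ 4))) ≤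
      ∑ i ∈ range (P.natDegree + 1), |P.coeff i| * (2 * ((i + 2).factorial : ℝ)) / (1 + u ^ 2) := by
    refine Finset.sum_le_sum fun i _ => ?_
    rw [mul_div_assoc]
    exact mul_le_mul_of_nonneg_left (mono_bound i u hu) (abs_nonneg _)
  have h3 : 0 ≤ 1 / (1 + u ^ 2) := by positivity
  linarith

theorem Ep_int (P : ℝ[X]) : IntegrableOn (Ep P) (Set.Ioi 0) := by
  obtain ⟨K, hK, h⟩ := Ep_bound P
  have h1 : Integrable (fun u : ℝ => K * (1 + u ^ 2)⁻¹) := integrable_inv_one_add_sq.const_mul K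
  refine (h1.integrableOn (s := Set.Ioi 0)).mono' (Ep_cont P).aestronglyMeasurable ?_
  refine (ae_restrict_iff' measurableSet_Ioi).2 (Eventually.of_forall fun u hu => ?_)
  rw [Real.norm_eq_abs, ← div_eq_mul_inv]
  exact h u (le_of_lt hu)

/-- the integral -/
def Ip (P : ℝ[X]) : ℝ := ∫ u in Set.Ioi (0 : ℝ), Ep P u

theorem sum_bound (P : ℝ[X]) : ∃ K : ℝ, 0 < K ∧ ∀ x, 0 < x → ∀ b : ℕ,
    |Ep P ((b + 1) * x)| ≤ K / x ^ 2 * (1 / ((b : ℝ) + 1) ^ 2) := by
  obtain ⟨K, hK, h⟩ := Ep_bound P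
  refine ⟨K, hK, fun x hx b => ?_⟩
  refine (h _ (by positivity)).trans ?_
  rw [div_mul_div_comm, mul_one]
  apply div_le_div_of_nonneg_left hK.le (by positivity)
  nlinarith

theorem summable_sq : Summable (fun b : ℕ => 1 / ((b : ℝ) + 1) ^ 2) := by
  have h := (summable_nat_add_iff 1).2 (Real.summable_one_div_nat_pow.2 (by norm_num : 1 < 2))
  refine h.congr fun b => ?_
  push_cast
  rfl

theorem Ep_summable (P : ℝ[X]) (x : ℝ) (hx : 0 < x) :
    Summable (fun b : ℕ => Ep P ((b + 1) * x)) := by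
  obtain ⟨K, hK, h⟩ := sum_bound P
  exact Summable.of_norm_bounded (summable_sq.mul_left (K / x ^ 2)) (fun b => h x hx b)

/-- sum minus integral -/
def Sd (P : ℝ[X]) (x : ℝ) : ℝ := (∑' b : ℕ, Ep P ((b + 1) * x)) - Ip P / x

theorem piece (P : ℝ[X]) (A x : ℝ) (hx : 0 ≤ x) :
    |x * Ep P (A + x) - ∫ u in A..(A + x), Ep P u| ≤ x * ∫ u in A..(A + x), |Ep (Dp P) u| := by
  have hAB : A ≤ A + x := by linarith
  have hc : Continuous fun u => |Ep (Dp P) u| := (Ep_cont _).abs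
  have h1 : x * Ep P (A + x) - ∫ u in A..(A + x), Ep P u
      = ∫ u in A..(A + x), (Ep P (A + x) - Ep P u) := by
    rw [intervalIntegral.integral_sub (by simp) ((Ep_cont P).intervalIntegrable _ _)]
    simp
  rw [h1]
  have h2 : ∀ u ∈ Set.uIoc A (A + x), ‖Ep P (A + x) - Ep P u‖ ≤
      ∫ u in A..(A + x), |Ep (Dp P) u| := by
    intro u hu
    rw [Set.uIoc_of_le hAB] at hu
    have h3 : ∫ v in u..(A + x), Ep (Dp P) v = Ep P (A + x) - Ep P u :=
      intervalIntegral.integral_eq_sub_of_hasDerivAt (fun v _ => Ep_hasDeriv P v)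
        ((Ep_cont _).intervalIntegrable _ _)
    rw [← h3]
    refine (intervalIntegral.norm_integral_le_integral_norm hu.2).trans ?_
    have h4 := intervalIntegral.integral_add_adjacent_intervals
      (hc.intervalIntegrable A u) (hc.intervalIntegrable u (A + x)) (μ := volume)
    rw [← h4]
    have h5 : 0 ≤ ∫ u in A..u, |Ep (Dp P) u| :=
      intervalIntegral.integral_nonneg hu.1.le (fun _ _ => abs_nonneg _)
    simp only [Real.norm_eq_abs]
    linarith
  have h6 := intervalIntegral.norm_integral_le_of_norm_le_const h2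
  rw [Real.norm_eq_abs] at h6
  refine h6.trans (le_of_eq ?_)
  rw [add_sub_cancel_left, abs_of_nonneg hx, mul_comm]

theorem partial_bound (P : ℝ[X]) (x : ℝ) (hx : 0 < x) (N : ℕ) :
    |∑ b ∈ range N, Ep P ((b + 1) * x) - (∫ u in (0 : ℝ)..(N * x), Ep P u) / x| ≤
      ∫ u in (0 : ℝ)..(N * x), |Ep (Dp P) u| := by
  have hc : Continuous fun u => |Ep (Dp P) u| := (Ep_cont _).abs
  induction N with
  | zero => simp
  | succ N ih =>
    have e1 := intervalIntegral.integral_add_adjacent_intervals (μ := volume)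
      ((Ep_cont P).intervalIntegrable 0 (N * x)) ((Ep_cont P).intervalIntegrable (N * x) (N * x + x))
    have e2 := intervalIntegral.integral_add_adjacent_intervals (μ := volume)
      (hc.intervalIntegrable 0 (N * x)) (hc.intervalIntegrable (N * x) (N * x + x))
    have e3 : ((N + 1 : ℕ) : ℝ) * x = N * x + x := by push_cast; ring
    have e4 : ((N : ℝ) + 1) * x = N * x + x := by ring
    rw [e3, Finset.sum_range_succ, e4, ← e1, ← e2, add_div]
    have h1 := piece P (N * x) x hx.le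
    have h2 : |Ep P (N * x + x) - (∫ u in (N * x)..(N * x + x), Ep P u) / x| ≤
        ∫ u in (N * x)..(N * x + x), |Ep (Dp P) u| := by
      have h3 : Ep P (N * x + x) - (∫ u in (N * x)..(N * x + x), Ep P u) / x =
          (x * Ep P (N * x + x) - ∫ u in (N * x)..(N * x + x), Ep P u) / x := by
        field_simp
      rw [h3, abs_div, abs_of_pos hx, div_le_iff₀ hx]
      have h4 := mul_comm x (∫ u in (N * x)..(N * x + x), |Ep (Dp P) u|)
      linarith
    calc _ = |(∑ b ∈ range N, Ep P ((b + 1) * x) - (∫ u in (0 : ℝ)..(N * x), Ep P u) / x) +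
          (Ep P (N * x + x) - (∫ u in (N * x)..(N * x + x), Ep P u) / x)| := by
          congr 1; ring
      _ ≤ _ := (abs_add_le _ _).trans (add_le_add ih h2)

theorem Sd_le (P : ℝ[X]) (x : ℝ) (hx : 0 < x) :
    |Sd P x| ≤ ∫ u in Set.Ioi (0 : ℝ), |Ep (Dp P) u| := by
  have hN : Tendsto (fun N : ℕ => (N : ℝ) * x) atTop atTop :=
    tendsto_natCast_atTop_atTop.atTop_mul_const hx
  have t1 : Tendsto (fun N : ℕ => ∑ b ∈ range N, Ep P ((b + 1) * x)) atTop
      (𝓝 (∑' b : ℕ, Ep P ((b + 1) * x))) := (Ep_summable P x hx).hasSum.tendsto_sum_nat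
  have t2 : Tendsto (fun N : ℕ => ∫ u in (0 : ℝ)..(N * x), Ep P u) atTop (𝓝 (Ip P)) :=
    intervalIntegral_tendsto_integral_Ioi 0 (Ep_int P) hN
  have hi : IntegrableOn (fun u => |Ep (Dp P) u|) (Set.Ioi 0) := (Ep_int (Dp P)).abs
  have t3 : Tendsto (fun N : ℕ => ∫ u in (0 : ℝ)..(N * x), |Ep (Dp P) u|) atTop
      (𝓝 (∫ u in Set.Ioi (0 : ℝ), |Ep (Dp P) u|)) :=
    intervalIntegral_tendsto_integral_Ioi 0 hi hN
  exact le_of_tendsto_of_tendsto' ((t1.sub (t2.div_const x)).abs) t3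
    (fun N => partial_bound P x hx N)

theorem Sd_bound (P : ℝ[X]) : ∃ K : ℝ, 0 < K ∧ ∀ x, 0 < x → |Sd P x| ≤ K ∧ |Sd P x| ≤ K / x := by
  obtain ⟨K, hK, h⟩ := sum_bound P
  set Z : ℝ := ∑' b : ℕ, 1 / ((b : ℝ) + 1) ^ 2 with hZ
  have hZ0 : 0 ≤ Z := tsum_nonneg fun b => by positivity
  set D : ℝ := ∫ u in Set.Ioi (0 : ℝ), |Ep (Dp P) u| with hD
  have hD0 : 0 ≤ D := integral_nonneg fun _ => abs_nonneg _
  refine ⟨D + K * Z + |Ip P| + 1, by positivity, fun x hx => ?_⟩
  have h1 := Sd_le P x hx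
  have h0 : 0 ≤ K * Z := by positivity
  have h00 := abs_nonneg (Ip P)
  refine ⟨by linarith, ?_⟩
  rcases le_total x 1 with hx1 | hx1
  · rw [le_div_iff₀ hx]
    have := abs_nonneg (Sd P x)
    nlinarith
  · have h2 : |∑' b : ℕ, Ep P ((b + 1) * x)| ≤ K / x ^ 2 * Z := by
      rw [hZ, ← tsum_mul_left]
      have hs := summable_sq.mul_left (K / x ^ 2)
      have hsn : Summable (fun b : ℕ => ‖Ep P ((b + 1) * x)‖) :=
        Summable.of_norm_bounded hs (fun b => by rw [norm_norm]; exact h x hx b)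
      have e1 : |∑' b : ℕ, Ep P ((b + 1) * x)| ≤ ∑' b : ℕ, ‖Ep P ((b + 1) * x)‖ :=
        norm_tsum_le_tsum_norm hsn
      exact e1.trans (Summable.tsum_le_tsum (fun b => h x hx b) hsn hs)
    have h3 : K / x ^ 2 * Z ≤ K * Z / x := by
      rw [div_mul_eq_mul_div]
      apply div_le_div_of_nonneg_left h0 hx
      nlinarith
    have h4 : |Ip P / x| = |Ip P| / x := by rw [abs_div, abs_of_pos hx]
    calc |Sd P x| ≤ |∑' b : ℕ, Ep P ((b + 1) * x)| + |Ip P / x| := abs_sub _ _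
      _ ≤ K * Z / x + |Ip P| / x := by rw [h4]; linarith
      _ ≤ _ := by
        rw [← add_div]
        apply div_le_div_of_nonneg_right _ hx.le
        linarith

end

end Pool.Agent.H413R2.RZ4HM
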