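import Pool.Agent.H27.G.R_seed8.H306R2.RZ.Defs4

/-! Task HP of the project RZ, part a: square classes. -/

set_option autoImplicit false

namespace Pool.Agent.H413R2.RZ4HP

open Finset Filter Topology MeasureTheory Pool.Agent.H306R2.RZ

noncomputable section

/-- the dual variable of the pair `(k, b)` -/
def Hm (e : ℕ) (k : ℤ) (b : ℕ) : ℤ :=
  (k / ((e.gcd k.natAbs : ℕ) : ℤ)) * ((e / e.gcd k.natAbs : ℕ) : ℤ) * (b : ℤ) ^ 2

theorem Hm_eq (e : ℕ) (k : ℤ) (b : ℕ) :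
    (e : ℤ) * Hm e k b = k * ((e / e.gcd k.natAbs * b : ℕ) : ℤ) ^ 2 := by
  unfold Hm
  obtain ⟨e2, he2⟩ : e.gcd k.natAbs ∣ e := Nat.gcd_dvd_left _ _
  obtain ⟨k', hk'⟩ : ((e.gcd k.natAbs : ℕ) : ℤ) ∣ k :=
    Int.natCast_dvd.2 (Nat.gcd_dvd_right _ _)
  generalize hd : e.gcd k.natAbs = d at he2 hk' ⊢
  rcases Nat.eq_zero_or_pos d with h0 | h0
  · subst h0
    rw [zero_mul] at he2
    rw [Nat.cast_zero, zero_mul] at hk'
    subst he2
    subst hk'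
    simp
  · have hd0 : (d : ℤ) ≠ 0 := by exact_mod_cast h0.ne'
    have h1 : e / d = e2 := by rw [he2, Nat.mul_div_cancel_left _ h0]
    have h2 : k / (d : ℤ) = k' := by rw [hk', Int.mul_ediv_cancel_left _ hd0]
    rw [h1, h2, he2, hk']
    push_cast
    ring

theorem sqf_unique {a a' c c' : ℕ} (ha : Squarefree a) (ha' : Squarefree a') (hc : c ≠ 0)
    (hc' : c' ≠ 0) (h : a * c ^ 2 = a' * c' ^ 2) : a = a' := by
  apply Nat.eq_of_factorization_eq ha.ne_zero ha'.ne_zero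
  intro p
  have h1 := congrArg (fun n => n.factorization p) h
  simp only [Nat.factorization_mul ha.ne_zero (pow_ne_zero 2 hc),
    Nat.factorization_mul ha'.ne_zero (pow_ne_zero 2 hc'), Nat.factorization_pow,
    Finsupp.add_apply, Finsupp.smul_apply, smul_eq_mul] at h1
  have h2 := ha.natFactorization_le_one p
  have h3 := ha'.natFactorization_le_one p
  omega

theorem sqf_unique_int {k k' : ℤ} {c c' : ℕ} (hk : Squarefree k.natAbs)
    (hk' : Squarefree k'.natAbs) (hc : c ≠ 0) (hc' : c' ≠ 0)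
    (h : k * (c : ℤ) ^ 2 = k' * (c' : ℤ) ^ 2) : k = k' := by
  have h1 : k.natAbs = k'.natAbs := by
    apply sqf_unique hk hk' hc hc'
    have := congrArg Int.natAbs h
    simpa [Int.natAbs_mul, Int.natAbs_pow] using this
  rcases Int.natAbs_eq_natAbs_iff.1 h1 with h2 | h2
  · exact h2
  · exfalso
    have hk0 : k' ≠ 0 := by
      rintro rfl
      simp at hk'
    rw [h2] at h
    have h3 : k' * ((c : ℤ) ^ 2 + (c' : ℤ) ^ 2) = 0 := by linarith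
    rcases mul_eq_zero.1 h3 with h4 | h4
    · exact hk0 h4
    · have : (0 : ℤ) < (c : ℤ) ^ 2 := by positivity
      have : (0 : ℤ) < (c' : ℤ) ^ 2 := by positivity
      linarith

/-- index set of the square classes -/
def IS : Set (ℤ × ℕ) := {p | Squarefree p.1.natAbs ∧ p.2 ≠ 0}

theorem e2_ne (e : ℕ) (he : e ≠ 0) (m : ℕ) : e / e.gcd m ≠ 0 := by
  have h1 : e.gcd m ∣ e := Nat.gcd_dvd_left _ _
  exact (Nat.div_pos (Nat.le_of_dvd (Nat.pos_of_ne_zero he) h1)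
    (Nat.gcd_pos_of_pos_left _ (Nat.pos_of_ne_zero he))).ne'

theorem Hm_inj (e : ℕ) (he : e ≠ 0) : Function.Injective (fun p : IS => Hm e p.1.1 p.1.2) := by
  rintro ⟨⟨k, b⟩, hk, hb⟩ ⟨⟨k', b'⟩, hk', hb'⟩ h
  simp only at h hk hb hk' hb'
  have h1 : k * ((e / e.gcd k.natAbs * b : ℕ) : ℤ) ^ 2 =
      k' * ((e / e.gcd k'.natAbs * b' : ℕ) : ℤ) ^ 2 := by
    rw [← Hm_eq, ← Hm_eq, h]
  have h2 : k = k' := sqf_unique_int hk hk' (Nat.mul_ne_zero (e2_ne e he _) hb)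
    (Nat.mul_ne_zero (e2_ne e he _) hb') h1
  subst h2
  have hk0 : k ≠ 0 := by
    rintro rfl
    simp at hk
  have h3 := mul_left_cancel₀ hk0 h1
  have h4 : (e / e.gcd k.natAbs * b) ^ 2 = (e / e.gcd k.natAbs * b') ^ 2 := by exact_mod_cast h3
  have h5 : e / e.gcd k.natAbs * b = e / e.gcd k.natAbs * b' :=
    Nat.pow_left_injective (by norm_num : 2 ≠ 0) h4
  have h6 : b = b' := Nat.eq_of_mul_eq_mul_left (Nat.pos_of_ne_zero (e2_ne e he _)) h5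
  subst h6
  rfl

theorem Hm_surj (e : ℕ) (hes : Squarefree e) (h : ℤ) (hh : h ≠ 0) :
    ∃ p : IS, Hm e p.1.1 p.1.2 = h := by
  have he : e ≠ 0 := hes.ne_zero
  obtain ⟨a, c, hac, ha⟩ := Nat.sq_mul_squarefree ((e : ℤ) * h).natAbs
  have hn : ((e : ℤ) * h).natAbs ≠ 0 := by
    rw [Int.natAbs_ne_zero]
    exact mul_ne_zero (by exact_mod_cast he) hh
  have hc : c ≠ 0 := by
    rintro rfl
    rw [← hac] at hn
    simp at hn
  set k : ℤ := Int.sign ((e : ℤ) * h) * a with hk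
  have hka : k.natAbs = a := by
    rw [hk, Int.natAbs_mul, Int.natAbs_sign, if_neg (Int.natAbs_ne_zero.1 hn)]
    simp
  have hek : (e : ℤ) * h = k * (c : ℤ) ^ 2 := by
    have h1 := (Int.sign_mul_natAbs ((e : ℤ) * h)).symm
    rw [← hac] at h1
    calc (e : ℤ) * h = Int.sign ((e : ℤ) * h) * ((c ^ 2 * a : ℕ) : ℤ) := h1
      _ = k * (c : ℤ) ^ 2 := by
        rw [hk]
        push_cast
        ring
  set e1 := e.gcd k.natAbs with he1
  obtain ⟨e2, he2⟩ : e1 ∣ e := Nat.gcd_dvd_left _ _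
  have he1p : 0 < e1 := Nat.gcd_pos_of_pos_left _ (Nat.pos_of_ne_zero he)
  have hdiv : e / e1 = e2 := by rw [he2, Nat.mul_div_cancel_left _ he1p]
  have hcop : Nat.Coprime e2 k.natAbs := by
    have h12 : Nat.Coprime e1 e2 := by
      rw [he2] at hes
      exact Nat.coprime_of_squarefree_mul hes
    by_contra hc'
    obtain ⟨p, hp, hpe, hpk⟩ := Nat.Prime.not_coprime_iff_dvd.1 hc'
    have hp1 : p ∣ e1 := Nat.dvd_gcd (hpe.trans (Dvd.intro_left _ he2.symm)) hpk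
    exact hp.one_lt.ne' (Nat.dvd_one.1 (h12 ▸ Nat.dvd_gcd hp1 hpe))
  have hdc : e2 ∣ k.natAbs * c ^ 2 := by
    have h1 := congrArg Int.natAbs hek
    rw [Int.natAbs_mul, Int.natAbs_mul, Int.natAbs_natCast, Int.natAbs_pow, Int.natAbs_natCast]
      at h1
    rw [← h1]
    exact (Dvd.intro_left _ he2.symm).trans (Dvd.intro _ rfl)
  have hdc2 : e2 ∣ c ^ 2 := hcop.dvd_of_dvd_mul_left hdc
  have hs2 : Squarefree e2 := by
    rw [he2] at hes
    exact hes.of_mul_right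
  obtain ⟨b, hb⟩ : e2 ∣ c := (hs2.dvd_pow_iff_dvd (by norm_num)).1 hdc2
  have hb0 : b ≠ 0 := by
    rintro rfl
    exact hc (by rw [hb, mul_zero])
  refine ⟨⟨(k, b), by
    show Squarefree k.natAbs ∧ b ≠ 0
    rw [hka]
    exact ⟨ha, hb0⟩⟩, ?_⟩
  have h2 := Hm_eq e k b
  rw [← he1, hdiv, ← hb, ← hek] at h2
  exact mul_left_cancel₀ (by exact_mod_cast he) h2

theorem Hm_ne (e : ℕ) (he : e ≠ 0) (p : IS) : Hm e p.1.1 p.1.2 ≠ 0 := by
  intro h
  have h1 := Hm_eq e p.1.1 p.1.2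
  rw [h, mul_zero] at h1
  obtain ⟨⟨k, b⟩, hk, hb⟩ := p
  simp only at h1 hk hb
  have hk0 : k ≠ 0 := by
    rintro rfl
    simp at hk
  have h2 : ((e / e.gcd k.natAbs * b : ℕ) : ℤ) ≠ 0 := by
    exact_mod_cast Nat.mul_ne_zero (e2_ne e he _) hb
  exact mul_ne_zero hk0 (pow_ne_zero 2 h2) h1.symm

theorem js_mul (a b : ℤ) (q : ℕ) : js (a * b) q = js a q * js b q := by
  rw [js, jacobiSym.mul_left]
  push_cast
  rfl

theorem js_sq (c q : ℕ) (hq : q ≠ 0) :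
    js ((c : ℤ) ^ 2) q = if c.Coprime q then 1 else 0 := by
  have : NeZero q := ⟨hq⟩
  split_ifs with h
  · rw [js, jacobiSym.sq_one' (by simpa using h)]
    simp
  · rw [pow_two, js_mul]
    have : jacobiSym (c : ℤ) q = 0 := jacobiSym.eq_zero_iff_not_coprime.2 (by simpa using h)
    simp [js, this]

theorem js_abs_le (a : ℤ) (q : ℕ) : |js a q| ≤ 1 := by
  rcases jacobiSym.trichotomy a q with h | h | h <;> simp [js, h]

/-- the symbol on the dual side -/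
theorem js_Hm (e q : ℕ) (he : e.Coprime q) (hq : q ≠ 0) (k : ℤ) (b : ℕ) :
    js e q * js (Hm e k b) q = js k q * (if b.Coprime q then 1 else 0) := by
  rw [← js_mul, Hm_eq, js_mul, js_sq _ _ hq]
  congr 1
  have h1 : (e / e.gcd k.natAbs).Coprime q := he.coprime_dvd_left (Nat.div_dvd_of_dvd (Nat.gcd_dvd_left _ _))
  by_cases hb : b.Coprime q
  · rw [if_pos hb, if_pos (Nat.Coprime.mul_left h1 hb)]
  · rw [if_neg hb, if_neg (fun h => hb (Nat.Coprime.coprime_dvd_left (Dvd.intro_left _ rfl) h))]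

/-- size of the dual variable -/
theorem Hm_size (M : ℝ) (hM : 0 < M) (e q : ℕ) (he : e ≠ 0) (hq : q ≠ 0) (k : ℤ) (hk : k ≠ 0)
    (b : ℕ) : (Hm e k b : ℝ) ^ 2 / ((q : ℝ) ^ 2 * ((e : ℝ) / M) ^ 2) =
      ((b : ℝ) / Real.sqrt ((e.gcd k.natAbs : ℝ) ^ 2 * q / ((k.natAbs : ℝ) * M))) ^ 4 := by
  have h1 := Hm_eq e k b
  obtain ⟨e2, he2⟩ : e.gcd k.natAbs ∣ e := Nat.gcd_dvd_left _ _
  have he1p : 0 < e.gcd k.natAbs := Nat.gcd_pos_of_pos_left _ (Nat.pos_of_ne_zero he)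
  have hdiv : e / e.gcd k.natAbs = e2 := Nat.div_eq_of_eq_mul_right he1p he2
  rw [hdiv] at h1
  have h2 : (e : ℝ) * (Hm e k b : ℝ) = (k : ℝ) * ((e2 : ℝ) * b) ^ 2 := by exact_mod_cast h1
  have h3 : (e : ℝ) = (e.gcd k.natAbs : ℝ) * e2 := by exact_mod_cast he2
  have hk' : ((k.natAbs : ℕ) : ℝ) ^ 2 = (k : ℝ) ^ 2 := by
    rw [Nat.cast_natAbs, Int.cast_abs, sq_abs]
  have hkp : (0 : ℝ) < (k.natAbs : ℕ) := by
    exact_mod_cast Int.natAbs_pos.2 hk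
  generalize hd : e.gcd k.natAbs = d at *
  have hd0 : (0 : ℝ) < d := by exact_mod_cast he1p
  have hq0 : (0 : ℝ) < q := by exact_mod_cast Nat.pos_of_ne_zero hq
  have he0 : (0 : ℝ) < e := by exact_mod_cast Nat.pos_of_ne_zero he
  have he20 : (e2 : ℝ) ≠ 0 := by
    intro h
    rw [h, mul_zero] at h3
    exact he0.ne' h3
  have h4 : (Hm e k b : ℝ) = (k : ℝ) * ((e2 : ℝ) * b) ^ 2 / e := by
    rw [← h2]
    field_simp
  have h5 : ((b : ℝ) / Real.sqrt ((d : ℝ) ^ 2 * q / ((k.natAbs : ℝ) * M))) ^ 4 =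
      (b : ℝ) ^ 4 / ((d : ℝ) ^ 2 * q / ((k.natAbs : ℝ) * M)) ^ 2 := by
    rw [div_pow]
    congr 1
    have : (Real.sqrt ((d : ℝ) ^ 2 * q / ((k.natAbs : ℝ) * M))) ^ 2 =
      (d : ℝ) ^ 2 * q / ((k.natAbs : ℝ) * M) := Real.sq_sqrt (by positivity)
    calc _ = ((Real.sqrt ((d : ℝ) ^ 2 * q / ((k.natAbs : ℝ) * M))) ^ 2) ^ 2 := by ring
      _ = _ := by rw [this]
  rw [h5, h4, h3]
  have h6 : ((d : ℝ) ^ 2 * q / ((k.natAbs : ℝ) * M)) ^ 2 = (d : ℝ) ^ 4 * q ^ 2 / ((k : ℝ) ^ 2 * M ^ 2) := by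
    rw [div_pow, mul_pow (k.natAbs : ℝ), hk']
    ring
  rw [h6]
  have hkr : (k : ℝ) ≠ 0 := by exact_mod_cast hk
  field_simp

end

end Pool.Agent.H413R2.RZ4HP
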